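import Mathlib
import Pool.Agent.H90.P.Ns
import Pool.Agent.H90.P.Helper386.D5V.Helper386_FF_Place

/-! Order estimates at a place of a function field, and approximation by polynomials in a
uniformizer. -/

set_option autoImplicit false

open Polynomial FF

namespace Pool.Agent.W603.LV

variable {k K : Type*} [Field k] [Field K] [Algebra k K]

/-- `f` vanishes to order at least `N` at `P`. -/
def Ge (P : Place k K) (N : ℤ) (f : K) : Prop := f = 0 ∨ N ≤ P.ord f

namespace Ge

variable {P : Place k K} {N M : ℤ} {f g : K}

theorem zero : Ge P N 0 := Or.inl rfl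

theorem mono (h : M ≤ N) (hf : Ge P N f) : Ge P M f := by
  rcases hf with hf | hf
  · exact Or.inl hf
  · exact Or.inr (h.trans hf)

theorem add (hf : Ge P N f) (hg : Ge P N g) : Ge P N (f + g) := by
  by_cases h1 : f = 0
  · rwa [h1, zero_add]
  by_cases h2 : g = 0
  · rwa [h2, add_zero]
  by_cases h3 : f + g = 0
  · exact Or.inl h3
  · right
    exact (le_min (hf.resolve_left h1) (hg.resolve_left h2)).trans (P.ord_add h1 h2 h3)

theorem neg (hf : Ge P N f) : Ge P N (-f) := by
  rcases hf with rfl | hf
  · left; simp
  · right; rwa [P.ord_neg]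

theorem sub (hf : Ge P N f) (hg : Ge P N g) : Ge P N (f - g) := by
  rw [sub_eq_add_neg]; exact hf.add hg.neg

theorem mul (hf : Ge P N f) (hg : Ge P M g) : Ge P (N + M) (f * g) := by
  by_cases h1 : f = 0
  · left; simp [h1]
  by_cases h2 : g = 0
  · left; simp [h2]
  right
  rw [P.ord_mul h1 h2]
  exact add_le_add (hf.resolve_left h1) (hg.resolve_left h2)

theorem const (c : k) : Ge P 0 (algebraMap k K c) := P.reg_const c

theorem one : Ge P 0 (1 : K) := P.reg_one

theorem intCast (n : ℤ) : Ge P 0 (n : K) := by
  have := Ge.const (P := P) (n : k)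
  rwa [map_intCast] at this

theorem pow (hf : Ge P N f) (n : ℕ) : Ge P (n * N) (f ^ n) := by
  induction n with
  | zero => simpa using Ge.one (P := P)
  | succ n ih =>
    rw [pow_succ]
    have := ih.mul hf
    convert this using 1
    push_cast; ring

theorem sum {ι : Type*} (s : Finset ι) (F : ι → K) (h : ∀ i ∈ s, Ge P N (F i)) :
    Ge P N (∑ i ∈ s, F i) := by
  classical
  induction s using Finset.induction_on with
  | empty => simpa using Ge.zero (P := P)
  | insert a s ha ih =>
    rw [Finset.sum_insert ha]
    exact (h a (Finset.mem_insert_self a s)).add (ih fun i hi => h i (Finset.mem_insert_of_mem hi))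

theorem prod {ι : Type*} (s : Finset ι) (F : ι → K) (n : ι → ℤ) (h : ∀ i ∈ s, Ge P (n i) (F i)) :
    Ge P (∑ i ∈ s, n i) (∏ i ∈ s, F i) := by
  classical
  induction s using Finset.induction_on with
  | empty => simpa using Ge.one (P := P)
  | insert a s ha ih =>
    rw [Finset.prod_insert ha, Finset.sum_insert ha]
    exact (h a (Finset.mem_insert_self a s)).mul (ih fun i hi => h i (Finset.mem_insert_of_mem hi))

theorem of_mul {h : K} (h0 : h ≠ 0) (hf : Ge P N (h * f)) : Ge P (N - P.ord h) f := by
  rcases hf with hf | hf
  · left; exact (mul_eq_zero.1 hf).resolve_left h0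
  · by_cases h1 : f = 0
    · exact Or.inl h1
    · right
      rw [P.ord_mul h0 h1] at hf; omega

end Ge

section approx


end approx

end Pool.Agent.W603.LV
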