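import Mathlib
import Pool.Agent.H90.P.Ns
import Pool.Agent.H90.P.Helper386.D5V.Helper386_FF_Place
import Pool.Agent.H90.P.W603.LV.Ord

/-! The order of a Wronskian at a place. -/

set_option autoImplicit false

open FF

namespace Pool.Agent.W603.LV

variable {k K : Type*} [Field k] [Field K] [Algebra k K] [CharZero k] [IsAlgClosed k]

omit [CharZero k] [IsAlgClosed k] in
theorem ge_det (P : Place k K) {m : ℕ} (M : Matrix (Fin m) (Fin m) K) (L : ℤ)
    (e : Fin m → Fin m → ℤ) (hM : ∀ i j, Ge P (e i j) (M i j))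
    (hL : ∀ σ : Equiv.Perm (Fin m), L ≤ ∑ i, e (σ i) i) : Ge P L M.det := by
  rw [Matrix.det_apply']
  refine Ge.sum _ _ fun σ _ => ?_
  have h1 := (Ge.intCast (P := P) (Equiv.Perm.sign σ : ℤ)).mul
    (Ge.prod Finset.univ (fun i => M (σ i) i) (fun i => e (σ i) i) (fun i _ => hM _ _))
  exact h1.mono (by rw [zero_add]; exact hL σ)

end Pool.Agent.W603.LV
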